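import Mathlib

set_option autoImplicit false

namespace Pool.Agent.Collinear

open MvPolynomial

/-- the ideal of a point of the affine plane -/
noncomputable def Id (a b : ℂ) : Ideal (MvPolynomial (Fin 2) ℂ) :=
  Ideal.span {(X 0 : MvPolynomial (Fin 2) ℂ) - C a, (X 1 : MvPolynomial (Fin 2) ℂ) - C b}

lemma pderiv_mem (a b : ℂ) (i : Fin 2) (k : ℕ) : ∀ f ∈ Id a b ^ (k + 1),
    pderiv i f ∈ Id a b ^ k := by
  induction k with
  | zero => intro f _; simp
  | succ k ih =>
    intro f hf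
    rw [pow_succ] at hf
    refine Submodule.mul_induction_on hf ?_ ?_
    · intro x hx y hy
      rw [Derivation.leibniz, smul_eq_mul, smul_eq_mul]
      refine Ideal.add_mem _ (Ideal.mul_mem_right _ _ hx) ?_
      rw [mul_comm, pow_succ]
      exact Ideal.mul_mem_mul (ih x hx) hy
    · intro x y hx hy
      rw [map_add]
      exact Ideal.add_mem _ hx hy

lemma iter_mem (a b : ℂ) (i : Fin 2) (al m : ℕ) (h : al ≤ m) (f : MvPolynomial (Fin 2) ℂ)
    (hf : f ∈ Id a b ^ m) : (pderiv i)^[al] f ∈ Id a b ^ (m - al) := by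
  induction al with
  | zero => simpa using hf
  | succ al ih =>
    rw [Function.iterate_succ_apply']
    apply pderiv_mem
    have : m - (al + 1) + 1 = m - al := by omega
    rw [this]
    exact ih (by omega)

lemma eval_mem (a b : ℂ) (f : MvPolynomial (Fin 2) ℂ) (hf : f ∈ Id a b) :
    eval ![a, b] f = 0 := by
  have h : Id a b ≤ RingHom.ker (eval ![a, b]) := by
    unfold Id
    rw [Ideal.span_le]
    rintro x (rfl | rfl)
    · simp [RingHom.mem_ker]
    · simp [RingHom.mem_ker]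
  exact h hf

lemma D_zero (a b : ℂ) (al be m : ℕ) (h : al + be < m) (f : MvPolynomial (Fin 2) ℂ)
    (hf : f ∈ Id a b ^ m) : eval ![a, b] ((pderiv 0)^[al] ((pderiv 1)^[be] f)) = 0 := by
  apply eval_mem
  have h1 := iter_mem a b 1 be m (by omega) f hf
  have h2 := iter_mem a b 0 al (m - be) (by omega) _ h1
  exact Ideal.pow_le_self (by omega) h2

lemma pd1 (c : ℂ) (i j be : ℕ) : (pderiv 1)^[be] (C c * X 0 ^ i * X 1 ^ j : MvPolynomial (Fin 2) ℂ)
    = C (c * (j.descFactorial be : ℂ)) * X 0 ^ i * X 1 ^ (j - be) := by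
  induction be with
  | zero => simp
  | succ be ih =>
    rw [Function.iterate_succ_apply', ih, Nat.descFactorial_succ]
    have h0 : pderiv (1 : Fin 2) (X 0 : MvPolynomial (Fin 2) ℂ) = 0 :=
      pderiv_X_of_ne (by decide)
    simp only [pderiv_mul, pderiv_C, pderiv_pow, h0, pderiv_X_self, mul_zero, zero_mul, zero_add,
      add_zero, mul_one, Nat.sub_sub, map_mul, map_natCast, Nat.cast_mul, Derivation.map_natCast]
    ring

lemma pd0 (c : ℂ) (i j al : ℕ) : (pderiv 0)^[al] (C c * X 0 ^ i * X 1 ^ j : MvPolynomial (Fin 2) ℂ)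
    = C (c * (i.descFactorial al : ℂ)) * X 0 ^ (i - al) * X 1 ^ j := by
  induction al with
  | zero => simp
  | succ al ih =>
    rw [Function.iterate_succ_apply', ih, Nat.descFactorial_succ]
    have h0 : pderiv (0 : Fin 2) (X 1 : MvPolynomial (Fin 2) ℂ) = 0 :=
      pderiv_X_of_ne (by decide)
    simp only [pderiv_mul, pderiv_C, pderiv_pow, h0, pderiv_X_self, mul_zero, zero_mul, zero_add,
      add_zero, mul_one, Nat.sub_sub, map_mul, map_natCast, Nat.cast_mul, Derivation.map_natCast]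
    ring

lemma eval_D (a b c : ℂ) (i j al be : ℕ) :
    eval ![a, b] ((pderiv 0)^[al] ((pderiv 1)^[be] (C c * X 0 ^ i * X 1 ^ j))) =
      (i.descFactorial al : ℂ) * (j.descFactorial be : ℂ) * a ^ (i - al) * b ^ (j - be) * c := by
  rw [pd1, pd0]
  simp
  ring

/-- exponents -/
noncomputable def ee (x : Fin 5 × Fin 5) : Fin 2 →₀ ℕ :=
  Finsupp.single 0 (x.1 : ℕ) + Finsupp.single 1 (x.2 : ℕ)

lemma ee_zero (x : Fin 5 × Fin 5) : ee x 0 = x.1 := by simp [ee]
lemma ee_one (x : Fin 5 × Fin 5) : ee x 1 = x.2 := by simp [ee]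

lemma ee_inj {x y : Fin 5 × Fin 5} (h : ee x = ee y) : x = y := by
  have h0 := ee_zero x
  have h1 := ee_one x
  rw [h, ee_zero] at h0
  rw [h, ee_one] at h1
  exact Prod.ext (Fin.ext h0.symm) (Fin.ext h1.symm)

lemma monomial_ee (x : Fin 5 × Fin 5) (c : ℂ) :
    (C c * X 0 ^ (x.1 : ℕ) * X 1 ^ (x.2 : ℕ) : MvPolynomial (Fin 2) ℂ) = monomial (ee x) c := by
  rw [ee, X_pow_eq_monomial, X_pow_eq_monomial, C_mul_monomial, monomial_mul]
  simp

lemma expand (f : MvPolynomial (Fin 2) ℂ) (hf : f.totalDegree ≤ 4) :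
    f = ∑ x : Fin 5 × Fin 5, C (coeff (ee x) f) * X 0 ^ (x.1 : ℕ) * X 1 ^ (x.2 : ℕ) := by
  simp_rw [monomial_ee]
  ext v
  rw [coeff_sum]
  simp_rw [coeff_monomial]
  by_cases hv : coeff v f = 0
  · rw [hv]
    symm
    apply Finset.sum_eq_zero
    intro x _
    split_ifs with h
    · rw [h, hv]
    · rfl
  · have hdeg : v 0 + v 1 ≤ 4 := by
      have := le_totalDegree (mem_support_iff.mpr hv)
      rw [Finsupp.sum_fintype _ _ (by simp), Fin.sum_univ_two] at this
      omega
    let x : Fin 5 × Fin 5 := (⟨v 0, by omega⟩, ⟨v 1, by omega⟩)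
    have hx : ee x = v := by
      ext i
      fin_cases i
      · exact ee_zero x
      · exact ee_one x
    rw [Finset.sum_eq_single x]
    · rw [if_pos hx, hx]
    · intro y _ hy
      rw [if_neg]
      intro h
      exact hy (ee_inj (h.trans hx.symm))
    · intro h; exact absurd (Finset.mem_univ _) h

lemma coeff_high (f : MvPolynomial (Fin 2) ℂ) (hf : f.totalDegree ≤ 4) (x : Fin 5 × Fin 5)
    (hx : 4 < (x.1 : ℕ) + (x.2 : ℕ)) : coeff (ee x) f = 0 := by
  by_contra h
  have := le_totalDegree (mem_support_iff.mpr h)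
  rw [Finsupp.sum_fintype _ _ (by simp), Fin.sum_univ_two, ee_zero, ee_one] at this
  omega

def mm : Fin 6 → ℕ := ![1, 1, 1, 1, 3, 3]

/-- the matrix of conditions, with polynomial entries -/
noncomputable def MM : Matrix ((Fin 6 × Fin 3 × Fin 3) ⊕ (Fin 5 × Fin 5)) (Fin 5 × Fin 5)
    (MvPolynomial (Fin 6 × Fin 2) ℂ) := fun r x =>
  match r with
  | Sum.inl (k, al, be) => if (al : ℕ) + (be : ℕ) < mm k then
      C (((x.1 : ℕ).descFactorial al : ℂ) * ((x.2 : ℕ).descFactorial be : ℂ)) *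
        X (k, 0) ^ ((x.1 : ℕ) - al) * X (k, 1) ^ ((x.2 : ℕ) - be) else 0
  | Sum.inr y => if x = y ∧ 4 < (x.1 : ℕ) + (x.2 : ℕ) then 1 else 0

/-- the numerical matrix -/
noncomputable def MN (p : Fin 6 → Fin 2 → ℂ) :
    Matrix ((Fin 6 × Fin 3 × Fin 3) ⊕ (Fin 5 × Fin 5)) (Fin 5 × Fin 5) ℂ := fun r x =>
  match r with
  | Sum.inl (k, al, be) => if (al : ℕ) + (be : ℕ) < mm k then
      ((x.1 : ℕ).descFactorial al : ℂ) * ((x.2 : ℕ).descFactorial be : ℂ) *
        p k 0 ^ ((x.1 : ℕ) - al) * p k 1 ^ ((x.2 : ℕ) - be) else 0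
  | Sum.inr y => if x = y ∧ 4 < (x.1 : ℕ) + (x.2 : ℕ) then 1 else 0

lemma eval_MM (p : Fin 6 → Fin 2 → ℂ) :
    MM.map (eval (fun ij : Fin 6 × Fin 2 => p ij.1 ij.2)) = MN p := by
  ext r x
  rw [Matrix.map_apply]
  rcases r with ⟨k, al, be⟩ | y
  · simp only [MM, MN]
    split_ifs <;> simp
  · simp only [MM, MN]
    split_ifs <;> simp

lemma MN_mulVec (p : Fin 6 → Fin 2 → ℂ) (f : MvPolynomial (Fin 2) ℂ) (hf : f.totalDegree ≤ 4)
    (h : ∀ i, f ∈ Id (p i 0) (p i 1) ^ (mm i)) :
    (MN p).mulVec (fun x => coeff (ee x) f) = 0 := by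
  funext r
  rcases r with ⟨k, al, be⟩ | y
  · simp only [Matrix.mulVec, dotProduct, MN, Pi.zero_apply]
    by_cases hlt : (al : ℕ) + (be : ℕ) < mm k
    · simp only [if_pos hlt]
      have h1 := D_zero (p k 0) (p k 1) al be (mm k) hlt f (h k)
      have h2 : eval ![p k 0, p k 1] ((pderiv 0)^[(al : ℕ)] ((pderiv 1)^[(be : ℕ)] f)) =
          ∑ x : Fin 5 × Fin 5, eval ![p k 0, p k 1] ((pderiv 0)^[(al : ℕ)] ((pderiv 1)^[(be : ℕ)]
            (C (coeff (ee x) f) * X 0 ^ (x.1 : ℕ) * X 1 ^ (x.2 : ℕ)))) := by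
        conv_lhs => rw [expand f hf]
        have hlin : ∀ (i : Fin 2) (n : ℕ) (g : Fin 5 × Fin 5 → MvPolynomial (Fin 2) ℂ),
            (pderiv i)^[n] (∑ x, g x) = ∑ x, (pderiv i)^[n] (g x) := by
          intro i n
          induction n with
          | zero => intro g; simp
          | succ n ih => intro g; rw [Function.iterate_succ_apply, map_sum, ih]; rfl
        rw [hlin, hlin, map_sum]
      rw [h2] at h1
      rw [← h1]
      apply Finset.sum_congr rfl
      intro x _
      rw [eval_D]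
    · simp only [if_neg hlt, zero_mul, Finset.sum_const_zero]
  · simp only [Matrix.mulVec, dotProduct, MN, Pi.zero_apply]
    apply Finset.sum_eq_zero
    intro x _
    split_ifs with hc
    · rw [coeff_high f hf x hc.2, mul_zero]
    · rw [zero_mul]

/-- the special configuration of six points -/
def pstar : Fin 6 → Fin 2 → ℂ := ![![0, 1], ![0, -1], ![1, 1], ![-1, 1], ![0, 0], ![1, 0]]

lemma MN_injective : Function.Injective (MN pstar).mulVec := by
  intro u v huv
  have h : ∀ r, (MN pstar).mulVec (u - v) r = 0 := by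
    intro r
    rw [Matrix.mulVec_sub, huv, sub_self]
    rfl
  suffices hz : u - v = 0 from sub_eq_zero.mp hz
  obtain ⟨c, hc⟩ : ∃ c, c = u - v := ⟨_, rfl⟩
  rw [← hc] at h ⊢
  have row : ∀ (k : Fin 6) (al be : Fin 3), (al : ℕ) + (be : ℕ) < mm k →
      ∑ x : Fin 5 × Fin 5, ((x.1 : ℕ).descFactorial al : ℂ) * ((x.2 : ℕ).descFactorial be : ℂ) *
        pstar k 0 ^ ((x.1 : ℕ) - al) * pstar k 1 ^ ((x.2 : ℕ) - be) * c x = 0 := by
    intro k al be hlt
    have := h (Sum.inl (k, al, be))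
    simpa only [Matrix.mulVec, dotProduct, MN, if_pos hlt] using this
  have high : ∀ x : Fin 5 × Fin 5, 4 < (x.1 : ℕ) + (x.2 : ℕ) → c x = 0 := by
    intro x hx
    have := h (Sum.inr x)
    simp only [Matrix.mulVec, dotProduct, MN] at this
    rw [Finset.sum_eq_single x] at this
    · simpa [hx] using this
    · intro y _ hy
      simp [hy]
    · intro hn; exact absurd (Finset.mem_univ _) hn
  have h14 := high (1, 4) (by decide)
  have h23 := high (2, 3) (by decide)
  have h24 := high (2, 4) (by decide)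
  have h32 := high (3, 2) (by decide)
  have h33 := high (3, 3) (by decide)
  have h34 := high (3, 4) (by decide)
  have h41 := high (4, 1) (by decide)
  have h42 := high (4, 2) (by decide)
  have h43 := high (4, 3) (by decide)
  have h44 := high (4, 4) (by decide)
  -- conditions at the origin
  have a00 := row 4 0 0 (by decide)
  have a10 := row 4 1 0 (by decide)
  have a01 := row 4 0 1 (by decide)
  have a20 := row 4 2 0 (by decide)
  have a11 := row 4 1 1 (by decide)
  have a02 := row 4 0 2 (by decide)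
  -- conditions at (1, 0)
  have b00 := row 5 0 0 (by decide)
  have b10 := row 5 1 0 (by decide)
  have b01 := row 5 0 1 (by decide)
  have b20 := row 5 2 0 (by decide)
  have b11 := row 5 1 1 (by decide)
  have b02 := row 5 0 2 (by decide)
  have e0 := row 0 0 0 (by decide)
  have e1 := row 1 0 0 (by decide)
  have e2 := row 2 0 0 (by decide)
  have e3 := row 3 0 0 (by decide)
  simp [Fintype.sum_prod_type, Fin.sum_univ_succ, pstar, Nat.descFactorial] at a00 a10 a01 a20 a11 a02 b00 b10 b01 b20 b11 b02 e0 e1 e2 e3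
  have z40 : c (4, 0) = 0 := by linear_combination b10 - 3 * b00 + 3 * a00 + 2 * a10 + a20
  have z30 : c (3, 0) = 0 := by linear_combination 4 * b00 - b10 - 4 * a00 - 3 * a10 - 2 * a20
  have z31 : c (3, 1) = 0 := by linear_combination b11 - 2 * b01 + 2 * a01 + a11 - 2 * h41
  have z21 : c (2, 1) = 0 := by linear_combination 3 * b01 - b11 - 3 * a01 - 2 * a11 + h41
  have z03 : c (0, 3) = 0 := by linear_combination (e0 - e1) / 2 - a01
  have z04 : c (0, 4) = 0 := by linear_combination (e0 + e1) / 2 - a00 - a02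
  have z22 : c (2, 2) = 0 := by
    linear_combination (e2 + e3) / 2 - (a00 + a01 + a02 + z03 + z04) - (a20 + z21 + h23 + h24) -
      (z40 + h41 + h42 + h43 + h44)
  have z12 : c (1, 2) = 0 := by linear_combination b02 / 2 - a02 - z22 - h32 - h42
  have z13 : c (1, 3) = 0 := by
    linear_combination (e2 - e3) / 2 - (a10 + a11 + z12 + h14) - (z30 + z31 + h32 + h33 + h34)
  funext x
  obtain ⟨i, j⟩ := x
  fin_cases i <;> fin_cases j
  · exact a00
  · exact a01
  · exact a02
  · exact z03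
  · exact z04
  · exact a10
  · exact a11
  · exact z12
  · exact z13
  · exact h14
  · exact a20
  · exact z21
  · exact z22
  · exact h23
  · exact h24
  · exact z30
  · exact z31
  · exact h32
  · exact h33
  · exact h34
  · exact z40
  · exact h41
  · exact h42
  · exact h43
  · exact h44

noncomputable def NP (N : Matrix (Fin 5 × Fin 5) ((Fin 6 × Fin 3 × Fin 3) ⊕ (Fin 5 × Fin 5)) ℂ) :
    Matrix (Fin 5 × Fin 5) (Fin 5 × Fin 5) (MvPolynomial (Fin 6 × Fin 2) ℂ) :=
  Matrix.of fun i j => ∑ k, C (N i k) * MM k j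

lemma eval_NP (N : Matrix (Fin 5 × Fin 5) ((Fin 6 × Fin 3 × Fin 3) ⊕ (Fin 5 × Fin 5)) ℂ)
    (p : Fin 6 → Fin 2 → ℂ) :
    (eval (fun ij : Fin 6 × Fin 2 => p ij.1 ij.2)).mapMatrix (NP N) = N * MN p := by
  ext i j
  rw [RingHom.mapMatrix_apply, Matrix.map_apply, Matrix.mul_apply, NP, Matrix.of_apply, map_sum]
  apply Finset.sum_congr rfl
  intro k _
  have := congrFun (congrFun (eval_MM p) k) j
  rw [Matrix.map_apply] at this
  rw [map_mul, eval_C, this]

/-- There is a nonzero polynomial in the coordinates of the six points, off whose zero set no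
nonzero quartic has the prescribed multiplicities. -/
theorem exists_delta : ∃ Δ : MvPolynomial (Fin 6 × Fin 2) ℂ, Δ ≠ 0 ∧
    ∀ p : Fin 6 → Fin 2 → ℂ, eval (fun ij : Fin 6 × Fin 2 => p ij.1 ij.2) Δ ≠ 0 →
      ∀ f : MvPolynomial (Fin 2) ℂ, f.totalDegree ≤ 4 →
        (∀ i, f ∈ Id (p i 0) (p i 1) ^ (mm i)) → f = 0 := by
  have hker : LinearMap.ker (Matrix.toLin' (MN pstar)) = ⊥ := by
    rw [LinearMap.ker_eq_bot]
    intro u v h
    rw [Matrix.toLin'_apply, Matrix.toLin'_apply] at h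
    exact MN_injective h
  obtain ⟨g, hg⟩ := LinearMap.exists_leftInverse_of_injective _ hker
  set N := LinearMap.toMatrix' g with hN
  have hNM : N * MN pstar = 1 := by
    have : N * MN pstar = LinearMap.toMatrix' (g ∘ₗ Matrix.toLin' (MN pstar)) := by
      rw [LinearMap.toMatrix'_comp, LinearMap.toMatrix'_toLin']
    rw [this, hg, LinearMap.toMatrix'_id]
  have hev : ∀ p : Fin 6 → Fin 2 → ℂ,
      eval (fun ij : Fin 6 × Fin 2 => p ij.1 ij.2) (NP N).det = (N * MN p).det := by
    intro p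
    rw [RingHom.map_det, eval_NP]
  refine ⟨(NP N).det, ?_, ?_⟩
  · intro h0
    have := hev pstar
    rw [h0, hNM, map_zero, Matrix.det_one] at this
    exact zero_ne_one this
  · intro p hp f hf hI
    rw [hev] at hp
    have h1 : (N * MN p).mulVec (fun x => coeff (ee x) f) = 0 := by
      rw [← Matrix.mulVec_mulVec, MN_mulVec p f hf hI, Matrix.mulVec_zero]
    have h2 : (fun x => coeff (ee x) f) = 0 := by
      by_contra hne
      exact hp (Matrix.exists_mulVec_eq_zero_iff.mp ⟨_, hne, h1⟩)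
    rw [expand f hf]
    apply Finset.sum_eq_zero
    intro x _
    rw [congrFun h2 x]
    simp

end Pool.Agent.Collinear
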